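import Pool.Agent.H586.AF.E

/-!
# Task AH-K2: the limit of the integral of four heat traces (helper340, subtask of helper586)
-/

set_option autoImplicit false

open MeasureTheory Matrix Finset Filter Topology

namespace Pool.Agent.H340.AH

open Pool.Agent.H586.AF

theorem near {C C0 : ℝ} (hC0 : 1 ≤ C0) {L : ℕ} (hL : 2 ≤ L) {t : ℝ} (ht : 0 ≤ t)
    (htL : t ≤ (L : ℝ) ^ 2) (h0 : 0 ≤ hh t) (h1 : hh t ≤ C / Real.sqrt (1 + t)) {x : ℝ}
    (hx : |x - L * hh t| ≤ C0) : |x| ≤ (C + 2 * C0) * (L / Real.sqrt (1 + t)) := by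
  have hL' : (2 : ℝ) ≤ L := by exact_mod_cast hL
  have hs : 0 < Real.sqrt (1 + t) := Real.sqrt_pos.2 (by linarith)
  have h2 : Real.sqrt (1 + t) ≤ 2 * L := by
    rw [Real.sqrt_le_left (by linarith)]
    nlinarith
  have h3 : 1 ≤ 2 * (L / Real.sqrt (1 + t)) := by
    rw [← mul_div_assoc, le_div_iff₀ hs]
    linarith
  have h4 : |x| ≤ |x - L * hh t| + |L * hh t| := by
    have h5 := abs_add_le (x - L * hh t) (L * hh t)
    rwa [sub_add_cancel] at h5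
  have h5 : |(L : ℝ) * hh t| ≤ L * (C / Real.sqrt (1 + t)) := by
    rw [abs_of_nonneg (by positivity)]
    exact mul_le_mul_of_nonneg_left h1 (by positivity)
  have h6 : C0 ≤ 2 * C0 * (L / Real.sqrt (1 + t)) := by nlinarith
  calc |x| ≤ C0 + L * (C / Real.sqrt (1 + t)) := by linarith
    _ ≤ 2 * C0 * (L / Real.sqrt (1 + t)) + C * (L / Real.sqrt (1 + t)) := by
        have h7 : (L : ℝ) * (C / Real.sqrt (1 + t)) = C * (L / Real.sqrt (1 + t)) := by ring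
        linarith
    _ = _ := by ring

theorem prod4 {a b c d A B C D : ℝ} (ha : |a| ≤ A) (hb : |b| ≤ B) (hc : |c| ≤ C) (hd : |d| ≤ D) :
    |a * b * c * d| ≤ A * B * C * D := by
  rw [abs_mul, abs_mul, abs_mul]
  have h1 := abs_nonneg a
  have h2 := abs_nonneg b
  have h3 := abs_nonneg c
  have h4 := abs_nonneg d
  have hA : 0 ≤ A := h1.trans ha
  have hB : 0 ≤ B := h2.trans hb
  have hC : 0 ≤ C := h3.trans hc
  gcongr

theorem near4 {C C0 : ℝ} (hC : 1 ≤ C) (hC0 : 1 ≤ C0) {L : ℕ} (hL : 2 ≤ L) {t : ℝ} (ht : 0 ≤ t)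
    (htL : t ≤ (L : ℝ) ^ 2) (h0 : 0 ≤ hh t) (h1 : hh t ≤ C / Real.sqrt (1 + t)) {x y z w : ℝ}
    (hx : |x - L * hh t| ≤ C0) (hy : |y - L * hh t| ≤ C0) (hz : |z - L * hh t| ≤ C0)
    (hw : |w - L * hh t| ≤ C0) :
    |x * y * z * w / (L : ℝ) ^ 4| ≤ (C + 2 * C0) ^ 4 * (1 + t ^ 2)⁻¹ := by
  have hL' : (2 : ℝ) ≤ L := by exact_mod_cast hL
  have hs : 0 < Real.sqrt (1 + t) := Real.sqrt_pos.2 (by linarith)
  have hL4 : (0 : ℝ) < (L : ℝ) ^ 4 := by positivity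
  have h2 := prod4 (near hC0 hL ht htL h0 h1 hx) (near hC0 hL ht htL h0 h1 hy)
    (near hC0 hL ht htL h0 h1 hz) (near hC0 hL ht htL h0 h1 hw)
  rw [abs_div, abs_of_pos hL4, div_le_iff₀ hL4]
  refine h2.trans ?_
  have h3 : Real.sqrt (1 + t) ^ 4 = (1 + t) ^ 2 := by
    have h4 : Real.sqrt (1 + t) ^ 2 = 1 + t := Real.sq_sqrt (by linarith)
    calc Real.sqrt (1 + t) ^ 4 = (Real.sqrt (1 + t) ^ 2) ^ 2 := by ring
      _ = _ := by rw [h4]
  have h5 : (C + 2 * C0) * (L / Real.sqrt (1 + t)) * ((C + 2 * C0) * (L / Real.sqrt (1 + t))) *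
      ((C + 2 * C0) * (L / Real.sqrt (1 + t))) * ((C + 2 * C0) * (L / Real.sqrt (1 + t))) =
      (C + 2 * C0) ^ 4 * ((1 + t) ^ 2)⁻¹ * (L : ℝ) ^ 4 := by
    rw [← h3]
    field_simp
  rw [h5]
  have h6 : ((1 + t) ^ 2)⁻¹ ≤ (1 + t ^ 2)⁻¹ := by
    apply inv_anti₀ (by positivity)
    nlinarith
  have h7 : 0 ≤ (C + 2 * C0) ^ 4 := by positivity
  exact mul_le_mul_of_nonneg_right (mul_le_mul_of_nonneg_left h6 h7) hL4.le

theorem far4 {C0 : ℝ} {L : ℕ} (hL : 2 ≤ L) {t : ℝ} (ht : 0 ≤ t) {x y z w : ℝ}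
    (hx : |x| ≤ C0) (hy : |y| ≤ C0) (hz : |z| ≤ C0)
    (hw : |w| ≤ C0 * Real.exp (-(t / (2 * (L : ℝ) ^ 2)))) :
    |x * y * z * w / (L : ℝ) ^ 4| ≤ 8 * C0 ^ 4 * (1 + t ^ 2)⁻¹ := by
  have hL' : (2 : ℝ) ≤ L := by exact_mod_cast hL
  have hL4 : (0 : ℝ) < (L : ℝ) ^ 4 := by positivity
  have hC0 : 0 ≤ C0 := (abs_nonneg x).trans hx
  have h2 := prod4 hx hy hz hw
  rw [abs_div, abs_of_pos hL4, div_le_iff₀ hL4]
  refine h2.trans ?_
  obtain ⟨u, hu⟩ : ∃ u : ℝ, u = t / (2 * (L : ℝ) ^ 2) := ⟨_, rfl⟩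
  have hu0 : 0 ≤ u := by rw [hu]; positivity
  have htu : t = 2 * (L : ℝ) ^ 2 * u := by
    rw [hu]
    field_simp
  rw [← hu]
  have h3 := Real.quadratic_le_exp_of_nonneg hu0
  have h1L : (1 : ℝ) ≤ (L : ℝ) ^ 4 := one_le_pow₀ (by linarith)
  have h4 : 1 + t ^ 2 ≤ 8 * (L : ℝ) ^ 4 * Real.exp u := by
    have h5 : t ^ 2 = 4 * u ^ 2 * (L : ℝ) ^ 4 := by
      rw [htu]
      ring
    have h6 : (L : ℝ) ^ 4 * (1 + u + u ^ 2 / 2) ≤ (L : ℝ) ^ 4 * Real.exp u :=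
      mul_le_mul_of_nonneg_left h3 hL4.le
    have h7 : 0 ≤ (L : ℝ) ^ 4 * u := by positivity
    rw [h5]
    nlinarith
  have h8 : Real.exp (-u) ≤ 8 * (1 + t ^ 2)⁻¹ * (L : ℝ) ^ 4 := by
    have h9 : 0 < 1 + t ^ 2 := by positivity
    have h10 : Real.exp (-u) * (1 + t ^ 2) ≤ 8 * (L : ℝ) ^ 4 := by
      calc Real.exp (-u) * (1 + t ^ 2) ≤ Real.exp (-u) * (8 * (L : ℝ) ^ 4 * Real.exp u) :=
            mul_le_mul_of_nonneg_left h4 (Real.exp_pos _).le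
        _ = 8 * (L : ℝ) ^ 4 * (Real.exp (-u) * Real.exp u) := by ring
        _ = _ := by rw [← Real.exp_add, neg_add_cancel, Real.exp_zero, mul_one]
    calc Real.exp (-u) = Real.exp (-u) * (1 + t ^ 2) * (1 + t ^ 2)⁻¹ := by field_simp
      _ ≤ 8 * (L : ℝ) ^ 4 * (1 + t ^ 2)⁻¹ :=
          mul_le_mul_of_nonneg_right h10 (by positivity)
      _ = _ := by ring
  calc C0 * C0 * C0 * (C0 * Real.exp (-u)) = C0 ^ 4 * Real.exp (-u) := by ring
    _ ≤ C0 ^ 4 * (8 * (1 + t ^ 2)⁻¹ * (L : ℝ) ^ 4) :=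
        mul_le_mul_of_nonneg_left h8 (by positivity)
    _ = _ := by ring

theorem lim1 {C0 t : ℝ} {f : ℕ → ℝ → ℝ}
    (hf : ∀ L : ℕ, 2 ≤ L → |f L t - L * hh t| ≤ C0) :
    Tendsto (fun L : ℕ => f L t / (L : ℝ)) atTop (𝓝 (hh t)) := by
  rw [tendsto_iff_norm_sub_tendsto_zero]
  have h1 : Tendsto (fun L : ℕ => C0 / (L : ℝ)) atTop (𝓝 0) :=
    tendsto_const_div_atTop_nhds_zero_nat C0
  refine squeeze_zero' (Eventually.of_forall fun L => norm_nonneg _) ?_ h1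
  filter_upwards [eventually_ge_atTop 2] with L hL
  have hL' : (2 : ℝ) ≤ L := by exact_mod_cast hL
  have hL0 : (0 : ℝ) < L := by linarith
  have h2 : f L t / (L : ℝ) - hh t = (f L t - L * hh t) / L := by
    field_simp
  rw [h2, Real.norm_eq_abs, abs_div, abs_of_pos hL0]
  exact div_le_div_of_nonneg_right (hf L hL) hL0.le

theorem tk2 (hH : Pool.Agent.H586.AF.S_H) : Pool.Agent.H586.AF.EE.S_K2 := by
  obtain ⟨C, hC1, _, hH2, _, _, _⟩ := hH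
  intro C0 hC0 c1 c2 c d hT
  have h1 : Tendsto (fun L : ℕ => ∫ t in Set.Ioi (0 : ℝ),
      c1 L t * c2 L t * c L t * d L t / (L : ℝ) ^ 4) atTop
      (𝓝 (∫ t in Set.Ioi (0 : ℝ), hh t ^ 4)) := by
    refine tendsto_integral_filter_of_dominated_convergence
      (fun t => ((C + 2 * C0) ^ 4 + 8 * C0 ^ 4) * (1 + t ^ 2)⁻¹) ?_ ?_ ?_ ?_
    · filter_upwards [eventually_ge_atTop 2] with L hL
      obtain ⟨t1, t2, t3⟩ := hT L hL
      have h2 : Continuous (fun t => c1 L t * c2 L t * c L t * d L t / (L : ℝ) ^ 4) :=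
        (((t1.cc.mul t2.cc).mul t3.cc).mul t1.cd).div_const _
      exact h2.aestronglyMeasurable
    · filter_upwards [eventually_ge_atTop 2] with L hL
      obtain ⟨t1, t2, t3⟩ := hT L hL
      refine (ae_restrict_iff' measurableSet_Ioi).2 (Eventually.of_forall fun t ht => ?_)
      have ht0 : 0 ≤ t := le_of_lt ht
      have hi : 0 < (1 + t ^ 2)⁻¹ := by positivity
      rw [Real.norm_eq_abs, add_mul]
      obtain ⟨h3, h4, _⟩ := hH2 t ht0
      have hp1 : 0 ≤ (C + 2 * C0) ^ 4 * (1 + t ^ 2)⁻¹ := by positivity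
      have hp2 : 0 ≤ 8 * C0 ^ 4 * (1 + t ^ 2)⁻¹ := by positivity
      rcases le_total t ((L : ℝ) ^ 2) with h5 | h5
      · have h6 := near4 hC1 hC0 hL ht0 h5 h3 h4 (t1.hc t ht0) (t2.hc t ht0) (t3.hc t ht0)
          (t1.hd t ht0)
        linarith
      · have h6 := far4 hL ht0 (t1.lc t h5) (t2.lc t h5) (t3.lc t h5) (t1.ld t h5)
        linarith
    · exact (integrable_inv_one_add_sq.const_mul _).integrableOn
    · refine (ae_restrict_iff' measurableSet_Ioi).2 (Eventually.of_forall fun t ht => ?_)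
      have ht0 : 0 ≤ t := le_of_lt ht
      have l1 := lim1 (f := c1) (t := t) (C0 := C0) (fun L hL => (hT L hL).1.hc t ht0)
      have l2 := lim1 (f := c2) (t := t) (C0 := C0) (fun L hL => (hT L hL).2.1.hc t ht0)
      have l3 := lim1 (f := c) (t := t) (C0 := C0) (fun L hL => (hT L hL).2.2.hc t ht0)
      have l4 := lim1 (f := d) (t := t) (C0 := C0) (fun L hL => (hT L hL).1.hd t ht0)
      have h2 := ((l1.mul l2).mul l3).mul l4
      have h3 : hh t * hh t * hh t * hh t = hh t ^ 4 := by ring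
      rw [h3] at h2
      refine h2.congr fun L => ?_
      ring
  refine h1.congr fun L => ?_
  exact integral_div _ _

end Pool.Agent.H340.AH
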